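import Pool.Agent.Run7.h8.RO.GenDens
import Pool.Agent.Run7.h8.RO.SetDefs

/-!
# Rohrlich's conjecture for almost all tuples

Let `D > 2`. Rohrlich's conjecture holds for all but at most
`(1 + 4 (D / φ(D)) ^ 3 (1 + log D) ^ 4) (D - 1) ^ (r - 1)` of the `(D - 1) ^ r` tuples
`(n_1 / D, ..., n_r / D)`, `0 < n_i < D`, for every `r ≥ 2`; for a prime `D` for all but
`3 (D - 1) ^ (r - 1)`. More precisely: for every complex number `z` at most that many of the products
`Γ (n_1 / D) ⋯ Γ (n_r / D)` are algebraic multiples of `z`. For `r = 1`: at most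
`√((1 + 4 (D / φ(D)) ^ 3 (1 + log D) ^ 4) (D - 1))` of the numbers `Γ (n / D)` are algebraic
multiples of `z` (for `z = 1`: are algebraic), and at most `√(2 (D - 1)) + 1` if `D` is a prime.

The proof: if `x_1 + x_2 = x_3 + x_4` modulo `D` and `Γ (x_1/D) Γ (x_2/D)` is an algebraic
multiple of `Γ (x_3/D) Γ (x_4/D)`, then two values of the Beta function are algebraic multiples of
each other; by the theorem of Wüstholz on the periods of abelian varieties and the theorem of
Deligne on absolute Hodge classes the CM types of the factors of the Jacobian of the Fermat curve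
coincide, i.e. the sums of the fractional parts of `t x_1 / D`, `t x_2 / D` and of `t x_3 / D`,
`t x_4 / D` are equal for all units `t`. The number of pairs `(x_3, x_4)` with this property and a
given sum is small: the norm of the matrix of the sawtooth function at the `t x / D` is bounded by
the sum of the absolute values of the Dedekind sums `s(u, D)`, which is at most
`D (1 + log D) ^ 2 / 4`. If `D` is a prime, then the pairs coincide, because the odd Dirichlet
`L`-functions do not vanish at `1`.
-/

set_option autoImplicit false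

namespace Pool.Agent.Results.MP_c2409d_nt.AlmostAllTuples

open Pool.Agent.W537.PC Run7.h8.RO

/-- **Rohrlich's conjecture for almost all tuples.** The hypotheses on the periods `P` of abelian
varieties of CM type over `ℚ̄` are the theorems of Deligne and Wüstholz, and the computation of the
periods of the Fermat curves. -/
theorem result (P : PeriodSystem) (hDeligne : P.Deligne) (hWustholz : Wustholz P)
    (hFermat : FermatPeriods P) (D : ℕ) (hD : 2 < D) :
    (∀ r : ℕ, 2 ≤ r →
      ((FailTuples D r).ncard : ℝ) ≤ factor D * ((D : ℝ) - 1) ^ (r - 1) ∧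
      ∀ z : ℂ, ((AlgTuples D r z).ncard : ℝ) ≤ factor D * ((D : ℝ) - 1) ^ (r - 1)) ∧
    (∀ z : ℂ, ((AlgTuples D 1 z).ncard : ℝ) ^ 2 ≤ factor D * ((D : ℝ) - 1)) ∧
    (D.Prime → (∀ z : ℂ, (AlgTuples D 1 z).ncard ≤ Nat.sqrt (2 * (D - 1)) + 1) ∧
      ∀ r : ℕ, 2 ≤ r → (FailTuples D r).ncard ≤ 3 * (D - 1) ^ (r - 1) ∧
        ∀ z : ℂ, (AlgTuples D r z).ncard ≤ 3 * (D - 1) ^ (r - 1)) := by
  have h1 : ∀ z : ℂ, (AlgTuples D 1 z).ncard ≤ {n : ℕ | 0 < n ∧ n < D ∧ ∃ α : ℂ,
      IsAlgebraic ℚ α ∧ Complex.Gamma ((n : ℂ) / D) = α * z}.ncard := by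
    intro z
    refine Set.ncard_le_ncard_of_injOn (fun n => n 0) ?_ ?_ ?_
    · rintro n ⟨hn, α, hα, h⟩
      exact ⟨(hn 0).1, (hn 0).2, α, hα, by simpa using h⟩
    · intro n _ n' _ h
      funext i
      rw [Subsingleton.elim i 0]
      exact h
    · exact (Set.finite_Iio D).subset fun n hn => hn.2.1
  refine ⟨fun r hr => ⟨fail_gen hD hDeligne hWustholz hFermat r hr,
    fun z => count_gen hD hDeligne hWustholz hFermat r hr z⟩, fun z => ?_, fun hp => ?_⟩
  · refine le_trans ?_ (one_gen hD hDeligne hWustholz hFermat z)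
    refine pow_le_pow_left₀ (Nat.cast_nonneg _) ?_ 2
    exact_mod_cast h1 z
  · have : Fact D.Prime := ⟨hp⟩
    exact ⟨fun z => (h1 z).trans (count_one hD hDeligne hWustholz hFermat z), fun r hr =>
      ⟨count_fail hD hDeligne hWustholz hFermat r hr,
        fun z => count_many hD hDeligne hWustholz hFermat r hr z⟩⟩

end Pool.Agent.Results.MP_c2409d_nt.AlmostAllTuples
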