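import Pool.Agent.Run7.h8.RO.Stable

/-!
# Rohrlich's conjecture for sums with three values, and for Galois stable systems of relations

Let `a_1, ..., a_r` be rational numbers with common denominator `D > 2`.

1. If no `a_i` is an integer and the sum of the fractional parts `{m a_i}` takes only values
   `r / 2, r / 2 + c, r / 2 - c` for the `m` prime to `D`, then Rohrlich's conjecture holds for the
   tuple. (For `r ≤ 4` and `a_1 + ⋯ + a_r` an integer this is the theorem of Wolfart and Wüstholz.)
2. The products of the `Γ (m a_i)` are algebraic multiples of `π ^ (r / 2)` for all `m` prime to `D`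
   if and only if the identity of the fractional parts holds for all `m` prime to `D`.
3. A common generalisation: the products for `m` in a subgroup `H` of the units, if the sum of the
   fractional parts is zero or the translate of one function on every coset of `H`.

The proof: the values of the Gamma function are, up to algebraic factors, products of powers of
periods of the factors of the Jacobian of the Fermat curve (by a telescoping sum of Beta values). If
a product of such periods has a sum of CM types which is a multiple of a function with values
`0, 1, -1`, then it is by the theorem of Deligne a power of the quotient of two periods, of two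
abelian varieties with complex multiplication by the whole cyclotomic field; if it is algebraic then
their CM types coincide by the theorem of Wüstholz. Every nonzero odd function on a finite abelian
group has a translation combination which is a nonzero function with values `0, c, -c` (starting
files, MP_f11a48_ag).
-/

set_option autoImplicit false

namespace Pool.Agent.Results.MP_c2409d_nt.GaloisStableRelations

open Pool.Agent.W537.PC Run7.h8.RO

/-- **Rohrlich's conjecture for sums with three values, and for Galois stable systems of
relations.** The hypotheses on the periods `P` of abelian varieties of CM type over `ℚ̄` are the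
theorems of Deligne and Wüstholz, and the computation of the periods of the Fermat curves. -/
theorem result (P : PeriodSystem) (hDeligne : P.Deligne) (hWustholz : Wustholz P)
    (hFermat : FermatPeriods P) (r : ℕ) (a : Fin r → ℚ) (D : ℕ) (hD : 2 < D)
    (hDa : ∀ i, ∃ y : ℤ, (D : ℚ) * a i = y) :
    -- sums with three values
    ((∀ i, ∀ y : ℤ, a i ≠ y) →
      (∃ c : ℚ, ∀ m : ℕ, 1 ≤ m → m < D → m.Coprime D →
        excess a m = 0 ∨ excess a m = c ∨ excess a m = -c) →
      (AlgMultiple a ↔ Identity D a)) ∧
    -- Galois stable systems of relations
    ((∀ (i : Fin r) (k : ℕ), a i ≠ -(k : ℚ)) →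
      ((∀ m : ℕ, 1 ≤ m → m < D → m.Coprime D → AlgMultiple (fun i => (m : ℚ) * a i)) ↔
        Identity D a)) ∧
    -- systems of relations which are stable under a subgroup
    ((∀ i, ∀ y : ℤ, a i ≠ y) → ∀ H : Subgroup (ZMod D)ˣ, (-1 : (ZMod D)ˣ) ∈ H →
      (∀ v w : (ZMod D)ˣ, (∀ u ∈ H, excess a (v * u : ZMod D).val = 0) ∨
        (∀ u ∈ H, excess a (w * u : ZMod D).val = 0) ∨
        ∃ u0 ∈ H, ∀ u ∈ H, excess a (v * u : ZMod D).val = excess a (w * (u0 * u) : ZMod D).val) →
      (∀ u ∈ H, AlgMultiple (fun i => ((u : ZMod D).val : ℚ) * a i) ∨
        AlgMultiple (fun i => ((-u : ZMod D).val : ℚ) * a i)) → Identity D a) := by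
  refine ⟨fun ha ⟨c, hc⟩ => three_values hD hDeligne hWustholz hFermat hDa ha c hc,
    fun ha => stable hD hDeligne hWustholz hFermat hDa ha, ?_⟩
  intro ha H hH hco halg
  obtain ⟨n, h⟩ := exists_num (by omega) hDa
  refine subgroup_rel hD hDeligne hWustholz hFermat h (h.not_dvd (by omega) ha) H hH ?_ ?_
  · intro v w
    simpa only [vl, Units.val_mul] using hco v w
  · intro u hu
    simpa only [vl, Units.val_neg] using halg u hu

end Pool.Agent.Results.MP_c2409d_nt.GaloisStableRelations
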