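import Mathlib
import Pool.Agent.Run7.h683.MR.X

set_option autoImplicit false

/-!
# MP_c2409d_nt: the polynomials in `π` and in a product of gamma values in random mixed radices

Rohrlich's conjecture predicts when a product `t = Γ(a_1) ⋯ Γ(a_r)` of gamma values at rational numbers is an algebraic
multiple of `π^(r/2)`; then `t` is algebraic over `ℚ(π)`. We look at the expansions of the values `f(t, π)` of the integral
polynomials `f` in two variables in mixed radices: the place values are
`1 / (p_0 p_1 ⋯ p_n)`, where `p_k` are independent random primes, `p_k` uniformly distributed on the primes up to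
`(k + 2) ^ θ`, `θ > 1`. The tail of the expansion of `y` after the place `n` is the fractional part of `p_0 ⋯ p_(n-1) y`.

For every product `t` and every degree `d` there are polynomials `F_N`, which do not depend on the radix, such that

(A) for all large `N`, `F_N = 0`, or `F_N` is irreducible of degree at most `d`, contains the first variable, has
coefficients at most `exp (N ^ a)`, and `|F_N(t, π)| < exp (- N ^ b)`, where `0 < a < b < 1`;

(B) `t` and `π` satisfy an algebraic relation of degree at most `d` over `ℚ` if and only if `F_N ≠ 0` for all large `N`;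

(C) almost surely, for all products `t` and all `d`: for all integral polynomials `f_1, …, f_m` of degree at most `d`, all `L`
and `ε > 0`, for all large `N`: if the `f_j` are linearly independent modulo the constants and the multiples of `F_N`, the
numbers `f_1(t, π), …, f_m(t, π)` are jointly equidistributed up to the place `N`, with words of length `L`, up to `ε`.

So at every place the polynomials in `t` and `π` of bounded degree which are not jointly equidistributed are accounted
for by the multiples of ONE irreducible polynomial. If `t` is an algebraic multiple of `π^(r/2)`, then for some `d` this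
polynomial is there for all large `N`; if it is not algebraic over `ℚ(π)` then for every `d` there are infinitely many `N`,
where all the monomials `t^i π^j`, `0 < i + j ≤ d`, are jointly equidistributed up to `N`. The proof works for every real
number `t`.

Proof. The second moment of the exponential sums of one number `y` up to the place `N` is small unless `y` is very close
to a rational number with a denominator `≤ exp (N ^ a)` (bilinear sums over the last two primes, and a descent; see
MP_5b6025_nt.RandomMixedRadix). If this happens for `y = ∑ c_j f_j(t, π)`, then the value of an integral polynomial of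
degree `≤ d` is extremely small in terms of its height; by helper168's theorem (MP_a2f59b_nt.NearAlgebraicRelations), which
rests on the transcendence measure of `π`, all such polynomials at one height are multiples of one irreducible
polynomial.
-/

namespace Pool.Agent.Results.MP_c2409d_nt.ProductsInRandomRadices

open Filter Topology MeasureTheory ProbabilityTheory

/-- the primes up to `(k + 2) ^ θ` -/
noncomputable def primes (θ : ℝ) (k : ℕ) : Finset ℕ := Nat.primesLE ⌊((k : ℝ) + 2) ^ θ⌋₊

/-- `p 0, p 1, …` are independent random primes, `p k` is uniformly distributed on the primes up to `(k + 2) ^ θ` -/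
structure RandomPrimes (θ : ℝ) {Ω : Type} [MeasurableSpace Ω] (P : Measure Ω) (p : ℕ → Ω → ℕ) : Prop where
  mem : ∀ k ω, p k ω ∈ primes θ k
  indep : iIndepFun p P
  uniform : ∀ k, ∀ q ∈ primes θ k, P.real {ω | p k ω = q} = 1 / ((primes θ k).card : ℝ)

/-- the product `p 0 ⋯ p (n - 1)` -/
def prod (p : ℕ → ℕ) (n : ℕ) : ℕ := ∏ k ∈ Finset.range n, p k

/-- the numbers `x i` are jointly equidistributed in the mixed radix `p` up to the place `N`, with words of length `L`
and up to the error `ε`: for all boxes the number of the places `n < N`, such that the fractional parts of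
`p 0 ⋯ p (n + l - 1) * x i`, `l < L`, are in the box, is equal to the volume of the box times `N` up to `ε N` -/
def Equi (p : ℕ → ℕ) {m : ℕ} (x : Fin m → ℝ) (L N : ℕ) (ε : ℝ) : Prop :=
  ∀ u w : Fin L → Fin m → ℝ, (∀ l i, 0 ≤ u l i ∧ u l i ≤ w l i ∧ w l i ≤ 1) →
    |(((Finset.range N).filter fun n => ∀ l i, u l i ≤ Int.fract ((prod p (n + (l : ℕ)) : ℝ) * x i) ∧
      Int.fract ((prod p (n + (l : ℕ)) : ℝ) * x i) < w l i).card : ℝ) - (∏ l, ∏ i, (w l i - u l i)) * N| ≤ ε * N

/-- the product of the gamma values at the rational numbers of a list -/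
noncomputable def gammaProduct (l : List ℚ) : ℝ := (l.map fun q => Real.Gamma (q : ℝ)).prod

/-- the value of a polynomial in two variables at `(t, π)` -/
noncomputable def value (t : ℝ) (f : MvPolynomial (Fin 2) ℤ) : ℝ := MvPolynomial.aeval ![t, Real.pi] f

/-- the polynomials `f j` are linearly independent modulo the multiples of `F` and the constants -/
def FreeModulo {m : ℕ} (F : MvPolynomial (Fin 2) ℤ) (f : Fin m → MvPolynomial (Fin 2) ℤ) : Prop :=
  ∀ (c : Fin m → ℤ) (u : ℤ), F ∣ ∑ j, MvPolynomial.C (c j) * f j - MvPolynomial.C u → c = 0

open Run7.h683.MR in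
/-- In almost all the mixed radices of random primes, for all products `t` of gamma values at rational numbers, all tuples
of integral polynomials in `t` and `π` are jointly equidistributed up to `N`, if they are linearly independent modulo
constants and multiples of one irreducible polynomial; this polynomial is there for all large `N` if and only if `t` and
`π` are algebraically dependent. -/
theorem result (θ : ℝ) (hθ : 1 < θ) :
    ∃ a b : ℝ, 0 < a ∧ a < b ∧ b < 1 ∧ ∃ F : List ℚ → ℕ → ℕ → MvPolynomial (Fin 2) ℤ,
      -- (A) the exceptional polynomials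
      (∀ (l : List ℚ) (d : ℕ), 1 ≤ d → ∀ᶠ N : ℕ in atTop, F l d N = 0 ∨
        (Irreducible (F l d N) ∧ 0 < (F l d N).degreeOf 0 ∧ (F l d N).totalDegree ≤ d ∧
          (∀ s, |(((F l d N).coeff s : ℤ) : ℝ)| ≤ Real.exp ((N : ℝ) ^ a)) ∧
          |value (gammaProduct l) (F l d N)| < Real.exp (-(N : ℝ) ^ b))) ∧
      -- (B) algebraic dependence
      (∀ (l : List ℚ) (d : ℕ), 1 ≤ d →
        ((∃ R : MvPolynomial (Fin 2) ℤ, R ≠ 0 ∧ R.totalDegree ≤ d ∧ value (gammaProduct l) R = 0) ↔
          ∀ᶠ N : ℕ in atTop, F l d N ≠ 0)) ∧
      -- (C) equidistribution outside the multiples of `F l d N`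
      (∀ (Ω : Type) [MeasurableSpace Ω] (P : Measure Ω) [IsProbabilityMeasure P] (p : ℕ → Ω → ℕ),
        RandomPrimes θ P p → ∀ᵐ ω ∂P, ∀ (l : List ℚ) (d : ℕ), 1 ≤ d →
          ∀ (m : ℕ) (f : Fin m → MvPolynomial (Fin 2) ℤ), (∀ j, (f j).totalDegree ≤ d) →
            ∀ (L : ℕ) (ε : ℝ), 0 < ε → ∀ᶠ N : ℕ in atTop, FreeModulo (F l d N) f →
              Equi (fun k => p k ω) (fun j => value (gammaProduct l) (f j)) L N ε) ∧
      -- such random primes exist
      ∃ (Ω : Type) (_ : MeasurableSpace Ω) (P : Measure Ω) (_ : IsProbabilityMeasure P) (p : ℕ → Ω → ℕ),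
        RandomPrimes θ P p := by
  obtain ⟨a, b, ha, hab, hb, h⟩ := poly_structure.{0} (growth θ hθ)
  have hF : ∀ l : List ℚ, _ := fun l => h 1 ![Real.pi] measM_pi (gammaProduct l)
  choose F hF1 hF2 using hF
  have hv : ∀ (t : ℝ) (f : MvPolynomial (Fin 2) ℤ), pv t ![Real.pi] f = value t f := by
    intro t f
    rw [pv_eq, cons_pair]
    rfl
  refine ⟨a, b, ha, hab, hb, F, fun l d hd => ?_, fun l d hd => ?_, ?_, ?_⟩
  · filter_upwards [(hF1 l d hd).1] with N hN
    rw [← hv]
    exact hN
  · have h1 := (hF1 l d hd).2
    simp only [hv] at h1
    exact h1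
  · intro Ω _ P _ p hp
    have h1 := ae_all_iff.2 fun l : List ℚ => hF2 l Ω P p (uniform_of_indep hp.mem hp.indep hp.uniform)
    filter_upwards [h1] with ω hω
    intro l d hd m f hf L ε hε
    filter_upwards [hω l d hd m f hf L ε hε] with N hN
    intro hfree
    have h2 := hN hfree
    simp only [hv] at h2
    exact h2
  · obtain ⟨Ω, i1, P, i2, p, h5, h6, h7⟩ := exists_uniform (Sk θ) (growth θ hθ).ne
    exact ⟨Ω, i1, P, i2, p, ⟨h5, h6, h7⟩⟩

end Pool.Agent.Results.MP_c2409d_nt.ProductsInRandomRadices
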