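import Pool.Agent.Run7.h467.GA.Lev
import Pool.Agent.Results.MP_c2409d_nt.FermatRelative

/-!
# Products of gamma values `B(q_j, ρ_i) = Γ(q_j) Γ(ρ_i) / Γ(q_j + ρ_i)`, for ALL tuples `q` of rational numbers near a real tuple

Let `ρ_1, …, ρ_m` be positive real (for instance rational) numbers such that no `ρ_i` and no `ρ_i - ρ_k` is an integer, let `F`
be a number field in `ℂ` and `ξ_1, ξ_2, …` any complex numbers, for instance powers of `π`. We consider all polynomial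
relations, also approximate ones, between the numbers `B(q_j, ρ_i)`, `q_1, …, q_n` rational, whose coefficients are linear
combinations of `ξ_1, …, ξ_g` with coefficients in `F`; in particular the multiplicative relations of Rohrlich's conjecture: a
product of the numbers `Γ(q_j)`, `Γ(ρ_i)`, `1 / Γ(q_j + ρ_i)` is an algebraic multiple of a power of `π`.

Theorem. Let `τ > 0`. For all points `y` of `(0, ∞) ^ n` but a set of Hausdorff dimension at most `2 (n - 1) / τ` the following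
holds for all `g`, `d`, `A`. There is `R` such that for all `c` and all large `T` and ALL `n`-tuples `q` of rational numbers
with denominators at most `T` and `|y_j - q_j| ≤ c T ^ (-τ)` for all `j`: no nonzero polynomial, of degree at most `d` in each
variable, with coefficients `∑ ξ_i a_i`, where the `a_i` are integers of `F` with conjugates at most `T ^ A`, takes at the
numbers `B(q_j, ρ_i)` a value which is at most `T ^ (-R)` times the largest coefficient. For one argument, `n = 1`, the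
dimension of the exceptional set is zero for every `τ > 0`, so in particular for all `y > 0` but a set of dimension zero this
holds for all convergents `q` of `y` with large denominators. The exceptional set has measure zero if `τ > 2 - 2 / n`.

The starting theorem `FermatRelative` bounds the number of the exceptional tuples with entries in a finite set `X` of rational
numbers with denominators at most `T` by `C T ^ ε |X| ^ (n - 1)`; this does not exclude exceptional tuples near all points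
`y`. The starting theorem `ApproximationsOfRealTuples` is about Rohrlich's identities for commensurable arguments (from
`CommensurableArguments`, with simple algebraic factors). Here the tuples near `y` are treated for `FermatRelative`, where
the relations are arbitrary polynomials with arbitrary constants `ξ_i`.
-/

set_option autoImplicit false

open Filter Topology NumberField

namespace Pool.Agent.Results.MP_c2409d_nt.ProductsNearEveryTuple

open FermatRelative (B Exceptional)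

/-- There is `R` such that for all `c`, all large `T` and all tuples `q` of rational numbers with denominators at most `T` and
`|y_j - q_j| ≤ c T ^ (-τ)`: for every polynomial `P`, of degree at most `d` in each variable, whose coefficients are of the form
`∑ ξ_i ι(a_i)`, `i < g`, where the `a_i` are integers of `F` all of whose conjugates have absolute value at most `T ^ A`, the
value of `P` at the numbers `B(q_j, ρ_i)` is larger than `T ^ (-R)` times the absolute value of every nonzero coefficient. -/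
def NoRelationNear {m n : ℕ} (ρ : Fin m → ℝ) (F : Type) [Field F] [NumberField F] (ι : F →+* ℂ) (ξ : ℕ → ℂ) (τ : ℝ)
    (g d : ℕ) (A : ℝ) (y : Fin n → ℝ) : Prop :=
  ∃ R : ℝ, ∀ c : ℝ, ∃ T₀ : ℝ, ∀ T : ℝ, T₀ ≤ T → ∀ q : Fin n → ℚ,
    (∀ j, ((q j).den : ℝ) ≤ T ∧ |y j - q j| ≤ c * T ^ (-τ)) →
      ∀ P : MvPolynomial (Fin n × Fin m) ℂ, (∀ x, P.degreeOf x ≤ d) →
        (∀ s, ∃ a : Fin g → 𝓞 F, (∀ i (φ : F →+* ℂ), ‖φ (a i)‖ ≤ T ^ A) ∧ P.coeff s = ∑ i : Fin g, ξ i * ι (a i)) →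
          ∀ s, P.coeff s ≠ 0 →
            T ^ (-R) * ‖P.coeff s‖ < ‖MvPolynomial.aeval (fun x : Fin n × Fin m => (B (q x.1) (ρ x.2) : ℂ)) P‖

/-- the rational numbers in `[a, b]` with denominators at most `N` -/
lemma rats (a b : ℝ) (hab : a ≤ b) (ha : 0 ≤ a) (N : ℕ) (hN : 1 ≤ N) : ∃ X : Finset ℚ,
    (∀ x : ℚ, x ∈ X ↔ a ≤ (x : ℝ) ∧ (x : ℝ) ≤ b ∧ x.den ≤ N) ∧ (X.card : ℝ) ≤ (b + 2) * (N : ℝ) ^ 2 := by
  classical
  obtain ⟨Y, hY⟩ : ∃ Y : Finset ℚ, Y = ((Finset.range (⌊b * N⌋₊ + 1)) ×ˢ (Finset.Icc 1 N)).image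
    (fun z => (z.1 : ℚ) / z.2) := ⟨_, rfl⟩
  refine ⟨Y.filter (fun x : ℚ => a ≤ (x : ℝ) ∧ (x : ℝ) ≤ b ∧ x.den ≤ N), fun x => ?_, ?_⟩
  · rw [Finset.mem_filter]
    refine ⟨fun h => h.2, fun h => ⟨?_, h⟩⟩
    rw [hY, Finset.mem_image]
    have hx0 : 0 ≤ x := by
      have h1 : (0 : ℝ) ≤ x := ha.trans h.1
      exact_mod_cast h1
    have hnum : (x.num.toNat : ℤ) = x.num := Int.toNat_of_nonneg (Rat.num_nonneg.2 hx0)
    have hden : (0 : ℝ) < x.den := by exact_mod_cast x.den_pos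
    refine ⟨(x.num.toNat, x.den), ?_, ?_⟩
    · rw [Finset.mem_product, Finset.mem_range, Finset.mem_Icc]
      refine ⟨?_, x.den_pos, h.2.2⟩
      rw [Nat.lt_succ_iff]
      apply Nat.le_floor
      have h2 : (x : ℝ) * x.den = x.num := by
        have h3 := Rat.mul_den_eq_num x
        exact_mod_cast h3
      have h4 : ((x.num.toNat : ℕ) : ℝ) = (x.num : ℝ) := by exact_mod_cast hnum
      have h5 : (x.den : ℝ) ≤ N := by exact_mod_cast h.2.2
      simp only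
      rw [h4, ← h2]
      exact mul_le_mul h.2.1 h5 hden.le ((ha.trans h.1).trans h.2.1)
    · simp only
      have h6 : ((x.num.toNat : ℕ) : ℚ) = (x.num : ℚ) := by exact_mod_cast hnum
      rw [h6]
      exact Rat.num_div_den x
  · have hb0 : 0 ≤ b := ha.trans hab
    have h1 : (Y.filter (fun x : ℚ => a ≤ (x : ℝ) ∧ (x : ℝ) ≤ b ∧ x.den ≤ N)).card ≤ (⌊b * N⌋₊ + 1) * N := by
      refine (Finset.card_filter_le _ _).trans ?_
      rw [hY]
      refine Finset.card_image_le.trans ?_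
      rw [Finset.card_product, Finset.card_range, Nat.card_Icc]
      simp
    have h2 : ((⌊b * N⌋₊ : ℕ) : ℝ) ≤ b * N := Nat.floor_le (by positivity)
    have hN1 : (1 : ℝ) ≤ N := by exact_mod_cast hN
    calc (((Y.filter (fun x : ℚ => a ≤ (x : ℝ) ∧ (x : ℝ) ≤ b ∧ x.den ≤ N)).card : ℕ) : ℝ)
        ≤ (((⌊b * N⌋₊ + 1) * N : ℕ) : ℝ) := by exact_mod_cast h1
      _ = ((⌊b * N⌋₊ : ℕ) + 1) * N := by push_cast; ring
      _ ≤ (b * N + 1) * N := mul_le_mul_of_nonneg_right (by linarith) (by positivity)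
      _ ≤ (b + 2) * (N : ℝ) ^ 2 := by nlinarith

/-- **Theorem.** Let `ρ_1, …, ρ_m > 0` be such that no `ρ_i` and no `ρ_i - ρ_k` (`i ≠ k`) is an integer, let `n ≥ 1`, `F` a
number field with an embedding `ι` in `ℂ`, `ξ` a sequence of complex numbers and `τ > 0`. The points `y` of `(0, ∞) ^ n` for
which `NoRelationNear` fails for some `g`, `d`, `A` form a set of Hausdorff dimension at most `2 (n - 1) / τ`. -/
theorem result (m n : ℕ) (hn : 1 ≤ n) (ρ : Fin m → ℝ) (hρ : ∀ i, 0 < ρ i) (h1 : ∀ i, ∀ z : ℤ, ρ i ≠ z)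
    (h2 : ∀ i k, i ≠ k → ∀ z : ℤ, ρ i - ρ k ≠ z) (F : Type) [Field F] [NumberField F] (ι : F →+* ℂ) (ξ : ℕ → ℂ)
    (τ : ℝ) (hτ : 0 < τ) :
    dimH {y : Fin n → ℝ | (∀ j, 0 < y j) ∧ ¬ ∀ (g d : ℕ) (A : ℝ), NoRelationNear ρ F ι ξ τ g d A y} ≤
      ENNReal.ofReal (2 * ((n : ℝ) - 1) / τ) := by
  have hn1 : (1 : ℝ) ≤ n := by exact_mod_cast hn
  apply ENNReal.le_of_forall_pos_le_add
  intro ε hε _
  have hε' : (0 : ℝ) < ε := by exact_mod_cast hε
  have hnn : 0 ≤ 2 * ((n : ℝ) - 1) / τ := div_nonneg (by linarith) hτ.le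
  have hωε : 0 < τ * ε := by positivity
  obtain ⟨e, he⟩ : ∃ e : ℝ, e = 2 * ((n : ℝ) - 1) + τ * ε / 2 := ⟨_, rfl⟩
  have he0 : 0 ≤ e := by rw [he]; linarith
  have heD : e < τ * (2 * ((n : ℝ) - 1) / τ + ε) := by
    rw [mul_add, mul_div_cancel₀ _ hτ.ne', he]
    linarith
  -- the constants for the cube `[1 / (K + 1), K + 1] ^ n`
  have hfam : ∀ z : ℕ × ℕ × ℕ × ℕ, ∃ R C : ℝ, ∃ J : ℕ, 0 ≤ C ∧ ∃ S : ℕ → Set (Fin n → ℚ),
      (∀ j, (S j).Finite ∧ ((S j).ncard : ℝ) ≤ C * ((2 : ℝ) ^ (j + 1)) ^ e) ∧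
      ∀ j : ℕ, J ≤ j → ∀ q : Fin n → ℚ, (∀ k, 1 / ((z.1 : ℝ) + 1) ≤ (q k : ℝ) ∧ (q k : ℝ) ≤ (z.1 : ℝ) + 1 ∧
        ((q k).den : ℝ) ≤ (2 : ℝ) ^ (j + 1)) →
        (∃ P : MvPolynomial (Fin n × Fin m) ℂ, (∀ x, P.degreeOf x ≤ z.2.2.1) ∧
          (∀ s, ∃ c : Fin z.2.1 → 𝓞 F, (∀ i (φ : F →+* ℂ), ‖φ (c i)‖ ≤ ((2 : ℝ) ^ (j + 1)) ^ (z.2.2.2 : ℝ)) ∧
            P.coeff s = ∑ i : Fin z.2.1, ξ i * ι (c i)) ∧
          ∃ s₀, P.coeff s₀ ≠ 0 ∧ ‖MvPolynomial.aeval (fun x : Fin n × Fin m => (B (q x.1) (ρ x.2) : ℂ)) P‖ ≤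
            ((2 : ℝ) ^ (j + 1)) ^ (-R) * ‖P.coeff s₀‖) → q ∈ S j := by
    rintro ⟨K, g, d, A⟩
    simp only
    have hK1 : (0 : ℝ) < (K : ℝ) + 1 := by positivity
    have hKK : 1 / ((K : ℝ) + 1) ≤ (K : ℝ) + 1 := by
      rw [div_le_iff₀ hK1]
      nlinarith [Nat.cast_nonneg (α := ℝ) K]
    obtain ⟨R, C, T₀, H⟩ := FermatRelative.result m ρ hρ h1 h2 (1 / ((K : ℝ) + 1)) ((K : ℝ) + 1) (by positivity)
      (Module.finrank ℚ F) n g d (A : ℝ) (τ * ε / 2) (by positivity)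
    choose X hX1 hX2 using fun j : ℕ => rats (1 / ((K : ℝ) + 1)) ((K : ℝ) + 1) hKK (by positivity) (2 ^ (j + 1))
      (Nat.one_le_pow _ _ (by norm_num))
    obtain ⟨J, hJ⟩ : ∃ J : ℕ, T₀ ≤ (2 : ℝ) ^ J := pow_unbounded_of_one_lt T₀ (by norm_num) |>.imp fun _ h => h.le
    refine ⟨R, |C| * ((K : ℝ) + 1 + 2) ^ (n - 1), J, by positivity, fun j => if J ≤ j then
      Exceptional n d ρ F ι (fun i : Fin g => ξ i) (X j) (A : ℝ) R ((2 : ℝ) ^ (j + 1)) else ∅, fun j => ?_,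
      fun j hj q hq hP => ?_⟩
    · by_cases hj : J ≤ j
      swap
      · simp only [if_neg hj, Set.finite_empty, Set.ncard_empty, Nat.cast_zero, true_and]
        positivity
      simp only [if_pos hj]
      have hfin : (Exceptional n d ρ F ι (fun i : Fin g => ξ i) (X j) (A : ℝ) R ((2 : ℝ) ^ (j + 1))).Finite := by
        refine Set.Finite.subset ((Fintype.piFinset (fun _ : Fin n => X j)).finite_toSet) ?_
        rintro q ⟨hq, -⟩
        rw [Finset.mem_coe, Fintype.mem_piFinset]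
        exact hq
      refine ⟨hfin, ?_⟩
      have hT : T₀ ≤ (2 : ℝ) ^ (j + 1) := hJ.trans (pow_le_pow_right₀ (by norm_num) (by omega))
      have h3 := H F le_rfl ι (fun i : Fin g => ξ i) ((2 : ℝ) ^ (j + 1)) hT (X j) (fun x hx => by
        have h4 := (hX1 j x).1 hx
        refine ⟨h4.1, h4.2.1, ?_⟩
        have h5 : (x.den : ℝ) ≤ ((2 ^ (j + 1) : ℕ) : ℝ) := by exact_mod_cast h4.2.2
        push_cast at h5
        exact h5)
      refine h3.trans ?_
      have hp : (0 : ℝ) < (2 : ℝ) ^ (j + 1) := by positivity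
      have h4 := hX2 j
      push_cast at h4
      calc C * ((2 : ℝ) ^ (j + 1)) ^ (τ * ε / 2) * ((X j).card : ℝ) ^ (n - 1)
          ≤ |C| * ((2 : ℝ) ^ (j + 1)) ^ (τ * ε / 2) * (((K : ℝ) + 1 + 2) * ((2 : ℝ) ^ (j + 1)) ^ 2) ^ (n - 1) := by
            apply mul_le_mul
            · exact mul_le_mul_of_nonneg_right (le_abs_self C) (by positivity)
            · exact pow_le_pow_left₀ (Nat.cast_nonneg _) h4 _
            · positivity
            · positivity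
        _ = |C| * ((K : ℝ) + 1 + 2) ^ (n - 1) * ((2 : ℝ) ^ (j + 1)) ^ e := by
            have h5 : (((2 : ℝ) ^ (j + 1)) ^ 2) ^ (n - 1) = ((2 : ℝ) ^ (j + 1)) ^ (2 * ((n : ℝ) - 1)) := by
              rw [← pow_mul, ← Real.rpow_natCast]
              congr 1
              push_cast [Nat.cast_sub hn]
              ring
            rw [mul_pow, h5, he, Real.rpow_add hp]
            ring
    · simp only [if_pos hj]
      refine ⟨fun k => (hX1 j (q k)).2 ⟨(hq k).1, (hq k).2.1, ?_⟩, hP⟩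
      have h5 := (hq k).2.2
      exact_mod_cast h5
  choose R C J hC S hS1 hS2 using hfam
  have hdim : ∀ z : (ℕ × ℕ × ℕ × ℕ) × ℕ, dimH {y : Fin n → ℝ | ∀ l : ℕ, ∃ j : ℕ, l ≤ j ∧
      ∃ x ∈ S z.1 j, ∀ k, |y k - x k| ≤ ((z.2 : ℝ) + 1) * ((2 : ℝ) ^ j) ^ (-τ)} ≤
        ENNReal.ofReal (2 * ((n : ℝ) - 1) / τ + ε) := fun z =>
    Run7.h467.GA.levels (S z.1) he0 hτ heD (C z.1) (hC z.1) (hS1 z.1) ((z.2 : ℝ) + 1) (by positivity)
  rw [← ENNReal.ofReal_coe_nnreal, ← ENNReal.ofReal_add hnn hε'.le]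
  refine (dimH_mono (t := ⋃ z : (ℕ × ℕ × ℕ × ℕ) × ℕ, {y : Fin n → ℝ | ∀ l : ℕ, ∃ j : ℕ, l ≤ j ∧
      ∃ x ∈ S z.1 j, ∀ k, |y k - x k| ≤ ((z.2 : ℝ) + 1) * ((2 : ℝ) ^ j) ^ (-τ)}) ?_).trans ?_
  swap
  · rw [dimH_iUnion]
    exact iSup_le hdim
  rintro y ⟨hy, hno⟩
  push Not at hno
  obtain ⟨g, d, A, hno⟩ := hno
  obtain ⟨A1, hA1⟩ := exists_nat_ge A
  -- the cube of `y`
  obtain ⟨K, hK⟩ : ∃ K : ℕ, ∀ k, 2 / ((K : ℝ) + 1) ≤ y k ∧ y k ≤ K := by
    obtain ⟨K, hK⟩ := exists_nat_ge (∑ k, (2 / y k + y k))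
    refine ⟨K, fun k => ?_⟩
    have h3 : 2 / y k + y k ≤ K := by
      refine le_trans ?_ hK
      exact Finset.single_le_sum (f := fun k => 2 / y k + y k) (fun i _ => by
        have := hy i
        positivity) (Finset.mem_univ k)
    have h4 : 0 < 2 / y k := by have := hy k; positivity
    have hK2 : (0 : ℝ) < (K : ℝ) + 1 := by positivity
    constructor
    · rw [div_le_iff₀ hK2]
      have h5 : 2 / y k ≤ (K : ℝ) + 1 := by linarith [hy k]
      rw [div_le_iff₀ (hy k)] at h5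
      linarith
    · linarith
  have hK1 : (0 : ℝ) < (K : ℝ) + 1 := by positivity
  obtain ⟨R1, hR1⟩ : ∃ R1 : ℝ, R1 = max (R (K, g, d, A1)) 0 := ⟨_, rfl⟩
  have hR10 : 0 ≤ R1 := by rw [hR1]; exact le_max_right _ _
  have hRR1 : R (K, g, d, A1) ≤ R1 := by rw [hR1]; exact le_max_left _ _
  have hno2 : ¬ ∀ c : ℝ, ∃ T₀ : ℝ, ∀ T : ℝ, T₀ ≤ T → ∀ q : Fin n → ℚ,
      (∀ j, ((q j).den : ℝ) ≤ T ∧ |y j - q j| ≤ c * T ^ (-τ)) →
      ∀ P : MvPolynomial (Fin n × Fin m) ℂ, (∀ x, P.degreeOf x ≤ d) →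
        (∀ s, ∃ a : Fin g → 𝓞 F, (∀ i (φ : F →+* ℂ), ‖φ (a i)‖ ≤ T ^ A) ∧ P.coeff s = ∑ i : Fin g, ξ i * ι (a i)) →
          ∀ s, P.coeff s ≠ 0 → T ^ (-(R1 + 1)) * ‖P.coeff s‖ <
            ‖MvPolynomial.aeval (fun x : Fin n × Fin m => (B (q x.1) (ρ x.2) : ℂ)) P‖ :=
    fun h => hno ⟨R1 + 1, h⟩
  push Not at hno2
  obtain ⟨c, hc⟩ := hno2
  obtain ⟨K1, hK1'⟩ := exists_nat_ge c
  rw [Set.mem_iUnion]
  refine ⟨((K, g, d, A1), K1), fun l => ?_⟩
  -- a large `T`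
  have hlim : ∀ᶠ T : ℝ in atTop, ((K1 : ℝ) + 1) * T ^ (-τ) ≤ 1 / ((K : ℝ) + 1) := by
    have h3 := (tendsto_rpow_neg_atTop hτ).const_mul ((K1 : ℝ) + 1)
    rw [mul_zero] at h3
    exact h3.eventually (ge_mem_nhds (by positivity))
  obtain ⟨T₁, hT₁⟩ := eventually_atTop.1 hlim
  obtain ⟨T, hT, q, hq, P, hPd, hPA, s, hs0, hPv⟩ := hc (max (max T₁ ((2 : ℝ) ^ (max l (J (K, g, d, A1))))) ((2 : ℝ) ^ R1))
  have hTT1 : T₁ ≤ T := ((le_max_left _ _).trans (le_max_left _ _)).trans hT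
  have hTm : (2 : ℝ) ^ (max l (J (K, g, d, A1))) ≤ T := ((le_max_right _ _).trans (le_max_left _ _)).trans hT
  have hTB : (2 : ℝ) ^ R1 ≤ T := (le_max_right _ _).trans hT
  have hT1 : 1 ≤ T := le_trans (one_le_pow₀ (by norm_num)) hTm
  have hT0 : 0 < T := by linarith
  obtain ⟨j, hj⟩ : ∃ j : ℕ, j = Nat.log 2 ⌊T⌋₊ := ⟨_, rfl⟩
  have hfl : 1 ≤ ⌊T⌋₊ := Nat.le_floor (by exact_mod_cast hT1)
  have hj1 : (2 : ℝ) ^ j ≤ T := by
    have h3 : 2 ^ j ≤ ⌊T⌋₊ := by rw [hj]; exact Nat.pow_log_le_self 2 (by omega)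
    have h4 : ((2 ^ j : ℕ) : ℝ) ≤ ⌊T⌋₊ := by exact_mod_cast h3
    have h5 := Nat.floor_le hT0.le
    push_cast at h4
    linarith
  have hj2 : T ≤ (2 : ℝ) ^ (j + 1) := by
    have h3 : ⌊T⌋₊ + 1 ≤ 2 ^ (j + 1) := by rw [hj]; exact Nat.lt_pow_succ_log_self (by norm_num) _
    have h4 : ((⌊T⌋₊ + 1 : ℕ) : ℝ) ≤ (2 : ℝ) ^ (j + 1) := by exact_mod_cast h3
    have h5 := (Nat.lt_floor_add_one T).le
    push_cast at h4
    linarith
  have hmj : max l (J (K, g, d, A1)) ≤ j := by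
    rw [hj]
    apply Nat.le_log_of_pow_le (by norm_num)
    apply Nat.le_floor
    push_cast
    exact hTm
  have hradT : ((K1 : ℝ) + 1) * T ^ (-τ) ≤ 1 / ((K : ℝ) + 1) := hT₁ T hTT1
  have hqk : ∀ k, |y k - q k| ≤ ((K1 : ℝ) + 1) * T ^ (-τ) := fun k =>
    (hq k).2.trans (mul_le_mul_of_nonneg_right (by linarith) (by positivity))
  refine ⟨j, (le_max_left _ _).trans hmj, q, hS2 (K, g, d, A1) j ((le_max_right _ _).trans hmj) q (fun k => ?_)
    ⟨P, hPd, fun s' => ?_, s, hs0, ?_⟩, fun k => ?_⟩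
  · have h3 := abs_le.1 ((hqk k).trans hradT)
    have h4 := hK k
    have h5 : 2 / ((K : ℝ) + 1) = 1 / ((K : ℝ) + 1) + 1 / ((K : ℝ) + 1) := by ring
    have h6 : 1 / ((K : ℝ) + 1) ≤ 1 := by
      rw [div_le_iff₀ hK1]
      linarith [Nat.cast_nonneg (α := ℝ) K]
    exact ⟨by linarith [h3.2, h4.1], by linarith [h3.1, h4.2], ((hq k).1).trans hj2⟩
  · obtain ⟨a, ha1, ha2⟩ := hPA s'
    refine ⟨a, fun i φ => (ha1 i φ).trans ?_, ha2⟩
    calc T ^ A ≤ T ^ (A1 : ℝ) := Real.rpow_le_rpow_of_exponent_le hT1 hA1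
      _ ≤ ((2 : ℝ) ^ (j + 1)) ^ (A1 : ℝ) := Real.rpow_le_rpow hT0.le hj2 (Nat.cast_nonneg _)
  · refine hPv.trans (mul_le_mul_of_nonneg_right ?_ (norm_nonneg _))
    have h2T : (2 : ℝ) ^ (j + 1) ≤ 2 * T := by
      rw [pow_succ]
      linarith
    have hp1 : (1 : ℝ) ≤ (2 : ℝ) ^ (j + 1) := one_le_pow₀ (by norm_num)
    calc T ^ (-(R1 + 1)) = T ^ (-R1) * T ^ (-(1 : ℝ)) := by
          rw [← Real.rpow_add hT0]
          congr 1
          ring
      _ ≤ T ^ (-R1) * (2 : ℝ) ^ (-R1) := by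
          apply mul_le_mul_of_nonneg_left _ (by positivity)
          rw [Real.rpow_neg hT0.le, Real.rpow_one, Real.rpow_neg (by norm_num)]
          exact inv_anti₀ (by positivity) hTB
      _ = (2 * T) ^ (-R1) := by
          rw [Real.mul_rpow (by norm_num) hT0.le]
          ring
      _ ≤ ((2 : ℝ) ^ (j + 1)) ^ (-R1) := Real.rpow_le_rpow_of_nonpos (by positivity) h2T (by linarith)
      _ ≤ ((2 : ℝ) ^ (j + 1)) ^ (-(R (K, g, d, A1))) := Real.rpow_le_rpow_of_exponent_le hp1 (by linarith)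
  · refine (hqk k).trans ?_
    apply mul_le_mul_of_nonneg_left _ (by positivity)
    exact Real.rpow_le_rpow_of_nonpos (by positivity) hj1 (by linarith)

end Pool.Agent.Results.MP_c2409d_nt.ProductsNearEveryTuple
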